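import Pool.Agent.PRT.StmtsD

/-!
# Condition (A) implies almost-reducibility (row FIN of squad PRT)

Problem MP_b2962a_an.
-/

set_option autoImplicit false

namespace Pool.Agent.PRT.H81

open Set MeasureTheory
open scoped ContDiff

theorem fin (h1 : ChlStmt) (h2 : CrdStmt) (h3 : StrStmt) : FinStmt := by
  intro F w C hLf hA k δ hδ
  obtain ⟨c1, N0, hc1⟩ := h2 (k + 3)
  obtain ⟨c2, hc2⟩ := h3 k
  obtain ⟨R, l0, hR⟩ := hc1 (N0 + (c1 + c1 * c2 + 2)) (by omega)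
  obtain ⟨q, p, l, hl, hG⟩ := h1 F w C hLf hA (N0 + (c1 + c1 * c2 + 2)) R
    (max l0 (max c2 (max (1 / δ) 1))) (by omega)
  have hl0 : l0 ≤ l := (le_max_left _ _).trans hl
  have hl' : max (c2 : ℝ) (max (1 / δ) 1) ≤ l := (le_max_right _ _).trans hl
  have hlc : (c2 : ℝ) ≤ l := (le_max_left _ _).trans hl'
  have hl'' : max (1 / δ) 1 ≤ l := (le_max_right _ _).trans hl'
  have hlδ : 1 / δ ≤ l := (le_max_left _ _).trans hl''
  have hl1 : 1 ≤ l := (le_max_right _ _).trans hl''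
  have hlpos : 0 < l := by linarith
  obtain ⟨U, sU, eU, dU, bU, bd⟩ := hR F w C q p l hl0 hG
  have hv := hG.v0
  have hN := hG.lN
  obtain ⟨ε, hε⟩ : ∃ ε, ε = ‖(q : ℝ) • w - p‖ := ⟨_, rfl⟩
  rw [← hε] at hv hN bd
  have hX : (c2 : ℝ) * (l ^ c1) ^ c2 * (ε * l ^ c1) * l ≤ 1 := by
    calc (c2 : ℝ) * (l ^ c1) ^ c2 * (ε * l ^ c1) * l
        ≤ l * (l ^ c1) ^ c2 * (ε * l ^ c1) * l := by gcongr
      _ = ε * l ^ (c1 + c1 * c2 + 2) := by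
        rw [← pow_mul, pow_add, pow_add]
        ring
      _ ≤ ε * l ^ (2 * (N0 + (c1 + c1 * c2 + 2))) := by
        have : l ^ (c1 + c1 * c2 + 2) ≤ l ^ (2 * (N0 + (c1 + c1 * c2 + 2))) :=
          pow_le_pow_right₀ hl1 (by omega)
        gcongr
      _ = 1 := hN
  have hX0 : 0 ≤ (c2 : ℝ) * (l ^ c1) ^ c2 * (ε * l ^ c1) := by positivity
  have hX1 : (c2 : ℝ) * (l ^ c1) ^ c2 * (ε * l ^ c1) ≤ 1 := by
    refine le_trans ?_ hX
    exact le_mul_of_one_le_right hX0 hl1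
  have hXδ : (c2 : ℝ) * (l ^ c1) ^ c2 * (ε * l ^ c1) ≤ δ := by
    have e1 : (c2 : ℝ) * (l ^ c1) ^ c2 * (ε * l ^ c1) * (1 / δ) ≤ 1 :=
      (mul_le_mul_of_nonneg_left hlδ hX0).trans hX
    rw [mul_one_div, div_le_one hδ] at e1
    exact e1
  obtain ⟨V, h, sV, sh, hVh, hhV, eh, dh, bh⟩ := hc2 F U w C (l ^ c1) (ε * l ^ c1) hLf
    (one_le_pow₀ hl1) (by positivity) hX1 sU eU dU bU bd
  exact ⟨h, V, sh, sV, hVh, hhV, eh, dh, bh.mono le_rfl hXδ⟩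

end Pool.Agent.PRT.H81
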