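import Pool.Agent.PRT.StmtsC

/-!
# The growth of all derivatives (row GRK of squad PRT)

Problem MP_b2962a_an.
-/

set_option autoImplicit false

namespace Pool.Agent.PRT.H81

open Set MeasureTheory
open scoped ContDiff

theorem id_deriv (i : ℕ) (hi : 2 ≤ i) (z : E) :
    iteratedFDeriv ℝ i (fun z : E => z) z = 0 := by
  obtain ⟨j, rfl⟩ : ∃ j, i = j + 1 := ⟨i - 1, by omega⟩
  have e : fderiv ℝ (fun z : E => z) = fun _ => ContinuousLinearMap.id ℝ E := by
    funext z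
    exact fderiv_fun_id
  rw [← norm_eq_zero, ← norm_iteratedFDeriv_fderiv, e, iteratedFDeriv_const_of_ne (by omega)]
  simp

theorem deriv_eq {g : E → E} (hg : ContDiff ℝ ∞ g) (i : ℕ) (hi : 2 ≤ i) (z : E) :
    iteratedFDeriv ℝ i g z = iteratedFDeriv ℝ i (fun z => g z - z) z := by
  have hs : ContDiff ℝ ∞ (fun z => g z - z) := hg.sub contDiff_id
  have h1 : ContDiffAt ℝ i (fun z => g z - z) z :=
    (hs.of_le (by exact_mod_cast le_top)).contDiffAt
  have hid : ContDiff ℝ ∞ (fun z : E => z) := contDiff_id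
  have h2 : ContDiffAt ℝ i (fun z : E => z) z :=
    (hid.of_le (by exact_mod_cast le_top)).contDiffAt
  have e : g = fun z => (g z - z) + z := by
    funext z
    rw [sub_add_cancel]
  have h3 := fun_iteratedFDeriv_add_apply h1 h2
  rw [id_deriv i hi z, add_zero] at h3
  rw [← h3, ← e]

theorem Nr.mono {g : E → E} {v : E} {C l : ℝ} {N k k' : ℕ} (h : Nr g v C l N k) (hk : k' ≤ k) :
    Nr g v C l N k' :=
  ⟨h.lf, h.v0, h.lN, h.l1, h.Cl, fun i hi z => h.bd i (hi.trans hk) z⟩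

theorem grk (h1 : KgrStmt) (h2 : GroStmt) : GrkStmt := by
  intro k
  obtain ⟨c, hc⟩ := h1 k
  obtain ⟨l1, hl1⟩ := h2
  refine ⟨1 + (330 * c + (k + 11) * c), max l1 (max 64 c), ?_⟩
  intro g v C l N n hl hN hNr hn j hj
  have hlA : l1 ≤ l := (le_max_left _ _).trans hl
  have hl64 : (64 : ℝ) ≤ l := ((le_max_left _ _).trans (le_max_right _ _)).trans hl
  have hlc : (c : ℝ) ≤ l := ((le_max_right _ _).trans (le_max_right _ _)).trans hl
  have hl1' : (1 : ℝ) ≤ l := by linarith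
  have hl0 : (0 : ℝ) ≤ l := by linarith
  have hv0 := hNr.v0
  have hG := hl1 g v C l N n hlA hN (Nr.mono hNr (by omega)) hn
  have hK := hc g hNr.lf.sm n (l ^ 330) (‖v‖ * l ^ (k + 8)) (one_le_pow₀ hl1') (by positivity) hG
    (by
      intro i hi hik z
      rw [deriv_eq hNr.lf.sm i hi z]
      refine (hNr.bd i (by omega) z).trans ?_
      have : l ^ (i + 8) ≤ l ^ (k + 8) := pow_le_pow_right₀ hl1' (by omega)
      gcongr) j hj
  refine hK.mono le_rfl ?_
  have e1 : (n : ℝ) * (‖v‖ * l ^ (k + 8)) ≤ l ^ (k + 10) := by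
    calc (n : ℝ) * (‖v‖ * l ^ (k + 8)) = (n * ‖v‖) * l ^ (k + 8) := by ring
      _ ≤ (64 * l) * l ^ (k + 8) := by gcongr
      _ ≤ (l * l) * l ^ (k + 8) := by gcongr
      _ = l ^ (k + 10) := by ring
  have e2 : 1 + (n : ℝ) * (‖v‖ * l ^ (k + 8)) ≤ l ^ (k + 11) := by
    have h3 : (1 : ℝ) ≤ l ^ (k + 10) := one_le_pow₀ hl1'
    calc 1 + (n : ℝ) * (‖v‖ * l ^ (k + 8)) ≤ l ^ (k + 10) + l ^ (k + 10) := add_le_add h3 e1
      _ = 2 * l ^ (k + 10) := by ring
      _ ≤ l * l ^ (k + 10) := by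
        have : (2 : ℝ) ≤ l := by linarith
        gcongr
      _ = l ^ (k + 11) := by ring
  have e0 : (0 : ℝ) ≤ 1 + (n : ℝ) * (‖v‖ * l ^ (k + 8)) := by positivity
  calc (c : ℝ) * (l ^ 330) ^ c * (1 + n * (‖v‖ * l ^ (k + 8))) ^ c
      ≤ l * (l ^ 330) ^ c * (l ^ (k + 11)) ^ c := by gcongr
    _ = l ^ (1 + (330 * c + (k + 11) * c)) := by
      rw [← pow_mul, ← pow_mul, pow_add, pow_add, pow_one, mul_assoc]

end Pool.Agent.PRT.H81
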